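import Mathlib

/-!
# Divisibility of `binom(kn + ln, kn)` by `ln + 1`

If `l n + 1` divides `binom(k n + l n, k n)` for all large `n`, then every prime factor of `k` divides
`l`. Indeed, if the prime `p` divides `k` but not `l`, then `p` does not divide `k + l`, so that
`(k + l) n = p ^ E - 1` has solutions `n` with `E` arbitrarily large. For them `p` divides
`l n + 1 = p ^ E - k n`, but `p` does not divide `binom(p ^ E - 1, k n)`.
-/

set_option autoImplicit false

namespace Pool.Agent.V11276.Old.PrimeFactors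

/-- no binomial coefficient `binom(p ^ E - 1, j)` with `j < p ^ E` is divisible by `p` -/
theorem not_dvd_choose {p E : ℕ} (hp : p.Prime) (j : ℕ) (hj : j < p ^ E) :
    ¬ p ∣ (p ^ E - 1).choose j := by
  induction j with
  | zero => simpa using hp.one_lt.ne'
  | succ j ih =>
    intro h
    have h1 := Nat.choose_succ_succ (p ^ E - 1) j
    have h2 : (p ^ E - 1).succ = p ^ E := by
      have := Nat.pos_of_ne_zero (pow_ne_zero E hp.ne_zero)
      omega
    rw [h2] at h1
    have h3 : p ∣ (p ^ E).choose (j + 1) := hp.dvd_choose_pow (by omega) (by omega)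
    rw [h1] at h3
    exact ih (by omega) ((Nat.dvd_add_left h).1 h3)

/-- If `(l n + 1) ∣ binom(k n + l n, k n)` for all `n ≥ N`, then every prime factor of `k` divides
`l`. -/
theorem result (k l : ℕ) (hk : 1 ≤ k) (hl : 1 ≤ l)
    (hD : ∃ N : ℕ, ∀ n ≥ N, (l * n + 1) ∣ (k * n + l * n).choose (k * n)) :
    ∀ p : ℕ, p.Prime → p ∣ k → p ∣ l := by
  intro p hp hpk
  by_contra hpl
  obtain ⟨N, hN⟩ := hD
  have hd : Nat.Coprime p (k + l) := by
    rw [hp.coprime_iff_not_dvd]
    intro h
    exact hpl ((Nat.dvd_add_right hpk).1 h)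
  have hE := Nat.ModEq.pow_totient hd
  obtain ⟨E, hE'⟩ : ∃ E, E = Nat.totient (k + l) * ((k + l) * N + 1) := ⟨_, rfl⟩
  have hEpos : (k + l) * N + 1 ≤ E := by
    rw [hE']
    exact Nat.le_mul_of_pos_left _ (Nat.totient_pos.2 (by omega))
  have h1 : p ^ E ≡ 1 [MOD (k + l)] := by
    rw [hE', pow_mul]
    simpa using hE.pow ((k + l) * N + 1)
  have hpE : E < p ^ E := Nat.lt_pow_self hp.one_lt
  have h2 : (k + l) ∣ p ^ E - 1 := (Nat.modEq_iff_dvd' (by omega)).1 h1.symm
  obtain ⟨n, hn⟩ := h2
  have hnN : N ≤ n := by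
    by_contra hlt
    have : (k + l) * n ≤ (k + l) * N := Nat.mul_le_mul_left _ (by omega)
    omega
  have h3 := hN n hnN
  have h4 : k * n + l * n = p ^ E - 1 := by rw [hn]; ring
  have h5 : p ∣ l * n + 1 := by
    have h6 : l * n + 1 + k * n = p ^ E := by omega
    have h7 : p ∣ l * n + 1 + k * n := by
      rw [h6]
      exact dvd_pow_self p (by omega)
    exact (Nat.dvd_add_left (hpk.mul_right n)).1 h7
  rw [h4] at h3
  exact not_dvd_choose hp (k * n) (by omega) (h5.trans h3)

end Pool.Agent.V11276.Old.PrimeFactors
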